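import Pool.Agent.V11109.Rok.Defs

/-!
# Existence of the sequence algebra of `C(X)`
-/

set_option autoImplicit false
set_option linter.style.haveILetI false
set_option linter.unusedSectionVars false

open scoped ComplexOrder Topology BoundedContinuousFunction
open Filter WeakDual

namespace Pool.Agent.V11109.Rok

section

variable {X : Type} [TopologicalSpace X] [CompactSpace X]

/-- the limit of the values at a sequence of points along an ultrafilter -/
lemma exists_lim (𝒰 : Ultrafilter ℕ) (x : ℕ → X) (b : ℕ →ᵇ C(X, ℂ)) :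
    ∃ z : ℂ, Tendsto (fun n => b n (x n)) 𝒰 (𝓝 z) := by
  have h1 : ∀ n, b n (x n) ∈ Metric.closedBall (0 : ℂ) ‖b‖ := fun n => by
    rw [mem_closedBall_zero_iff]
    exact ((b n).norm_coe_le_norm _).trans (b.norm_coe_le_norm n)
  have h2 : (𝒰.map fun n => b n (x n) : Ultrafilter ℂ) ≤ 𝓟 (Metric.closedBall (0 : ℂ) ‖b‖) := by
    rw [Filter.le_principal_iff]
    show (fun n => b n (x n)) ⁻¹' Metric.closedBall (0 : ℂ) ‖b‖ ∈ (𝒰 : Filter ℕ)
    exact Filter.univ_mem' h1
  obtain ⟨z, -, hz⟩ := (isCompact_closedBall (0 : ℂ) ‖b‖).ultrafilter_le_nhds _ h2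
  exact ⟨z, hz⟩

/-- evaluation at a sequence of points along an ultrafilter -/
noncomputable def evU (𝒰 : Ultrafilter ℕ) (x : ℕ → X) : (ℕ →ᵇ C(X, ℂ)) →ₐ[ℂ] ℂ where
  toFun b := (exists_lim 𝒰 x b).choose
  map_one' := tendsto_nhds_unique (exists_lim 𝒰 x 1).choose_spec tendsto_const_nhds
  map_mul' a b := tendsto_nhds_unique (exists_lim 𝒰 x (a * b)).choose_spec
    ((exists_lim 𝒰 x a).choose_spec.mul (exists_lim 𝒰 x b).choose_spec)
  map_zero' := tendsto_nhds_unique (exists_lim 𝒰 x 0).choose_spec tendsto_const_nhds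
  map_add' a b := tendsto_nhds_unique (exists_lim 𝒰 x (a + b)).choose_spec
    ((exists_lim 𝒰 x a).choose_spec.add (exists_lim 𝒰 x b).choose_spec)
  commutes' r := tendsto_nhds_unique (exists_lim 𝒰 x (algebraMap ℂ _ r)).choose_spec
    tendsto_const_nhds

lemma evU_tendsto (𝒰 : Ultrafilter ℕ) (x : ℕ → X) (b : ℕ →ᵇ C(X, ℂ)) :
    Tendsto (fun n => b n (x n)) 𝒰 (𝓝 (evU 𝒰 x b)) := (exists_lim 𝒰 x b).choose_spec

/-- the characters of `ℓ^∞(C(X))` which vanish on `c₀(C(X))` -/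
def KU (X : Type) [TopologicalSpace X] [CompactSpace X] :
    Set (characterSpace ℂ (ℕ →ᵇ C(X, ℂ))) :=
  {χ | ∀ a : ℕ →ᵇ C(X, ℂ), Tendsto (fun n => ‖a n‖) atTop (𝓝 0) → χ a = 0}

lemma isClosed_KU : IsClosed (KU X) := by
  have h1 : KU X = ⋂ a : ℕ →ᵇ C(X, ℂ), ⋂ _ : Tendsto (fun n => ‖a n‖) atTop (𝓝 0),
      {χ : characterSpace ℂ (ℕ →ᵇ C(X, ℂ)) | χ a = 0} := by
    ext χ
    simp only [KU, Set.mem_ofPred_eq, Set.mem_iInter]
  rw [h1]
  refine isClosed_iInter fun a => isClosed_iInter fun _ => ?_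
  have h2 : Continuous fun χ : characterSpace ℂ (ℕ →ᵇ C(X, ℂ)) => χ a :=
    (WeakDual.eval_continuous a).comp continuous_subtype_val
  exact isClosed_eq h2 continuous_const

/-- the inclusion of the closed set of characters -/
def incU (X : Type) [TopologicalSpace X] [CompactSpace X] :
    C(KU X, characterSpace ℂ (ℕ →ᵇ C(X, ℂ))) := ⟨Subtype.val, continuous_subtype_val⟩

/-- the quotient map -/
noncomputable def qU (X : Type) [TopologicalSpace X] [CompactSpace X] :
    (ℕ →ᵇ C(X, ℂ)) →⋆ₐ[ℂ] C(KU X, ℂ) :=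
  ((incU X).compStarAlgHom' ℂ ℂ).comp
    (gelfandStarTransform (ℕ →ᵇ C(X, ℂ)) : (ℕ →ᵇ C(X, ℂ)) →⋆ₐ[ℂ] _)

lemma qU_apply (a : ℕ →ᵇ C(X, ℂ)) (χ : KU X) : qU X a χ = χ.1 a := rfl

instance : CompactSpace (KU X) := isCompact_iff_compactSpace.mp isClosed_KU.isCompact

lemma qU_surjective : Function.Surjective (qU X) := by
  intro f
  obtain ⟨g, hg⟩ := ContinuousMap.exists_restrict_eq (isClosed_KU (X := X)) f
  obtain ⟨a, ha⟩ : ∃ a, gelfandStarTransform (ℕ →ᵇ C(X, ℂ)) a = g :=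
    (gelfandStarTransform (ℕ →ᵇ C(X, ℂ))).surjective g
  refine ⟨a, ?_⟩
  ext χ
  rw [← hg]
  show gelfandStarTransform (ℕ →ᵇ C(X, ℂ)) a χ.1 = g χ.1
  rw [ha]

lemma qU_ker [Nonempty X] (a : ℕ →ᵇ C(X, ℂ)) :
    qU X a = 0 ↔ Tendsto (fun n => ‖a n‖) atTop (𝓝 0) := by
  constructor
  · intro h
    by_contra hcon
    -- a set of indices with large norms
    obtain ⟨ε, hε, hfr⟩ : ∃ ε : ℝ, 0 < ε ∧ ∃ᶠ n in atTop, ε ≤ ‖a n‖ := by
      by_contra hc
      push Not at hc
      apply hcon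
      rw [Metric.tendsto_nhds]
      intro ε hε
      filter_upwards [hc ε hε] with n hn
      rw [dist_zero_right, norm_norm]
      exact hn
    have hne : NeBot (atTop ⊓ 𝓟 {n | ε ≤ ‖a n‖}) := Filter.frequently_mem_iff_neBot.mp hfr
    let 𝒰 : Ultrafilter ℕ := Ultrafilter.of (atTop ⊓ 𝓟 {n | ε ≤ ‖a n‖})
    have h𝒰 : (𝒰 : Filter ℕ) ≤ atTop ⊓ 𝓟 {n | ε ≤ ‖a n‖} := Ultrafilter.of_le _
    have h𝒰1 : (𝒰 : Filter ℕ) ≤ atTop := h𝒰.trans inf_le_left
    have h𝒰2 : ∀ᶠ n in (𝒰 : Filter ℕ), ε ≤ ‖a n‖ := by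
      have := h𝒰.trans inf_le_right
      rwa [Filter.le_principal_iff] at this
    -- points where the norm is attained
    have hx : ∀ n, ∃ x : X, ‖a n x‖ = ‖a n‖ := by
      intro n
      obtain ⟨x, -, hx⟩ := isCompact_univ.exists_isMaxOn (Set.univ_nonempty (α := X))
        ((a n).continuous.norm.continuousOn)
      refine ⟨x, le_antisymm ((a n).norm_coe_le_norm x) ?_⟩
      rw [ContinuousMap.norm_le _ (norm_nonneg _)]
      intro y
      exact hx (Set.mem_univ y)
    choose x hx using hx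
    let χ : characterSpace ℂ (ℕ →ᵇ C(X, ℂ)) := CharacterSpace.equivAlgHom.symm (evU 𝒰 x)
    have hχ : ∀ b, χ b = evU 𝒰 x b := fun b => by
      show CharacterSpace.equivAlgHom.symm (evU 𝒰 x) b = _
      rw [CharacterSpace.equivAlgHom_symm_coe]
    have hmem : χ ∈ KU X := by
      intro b hb
      rw [hχ]
      refine tendsto_nhds_unique (evU_tendsto 𝒰 x b) ?_
      rw [tendsto_zero_iff_norm_tendsto_zero]
      exact squeeze_zero (fun n => norm_nonneg _) (fun n => (b n).norm_coe_le_norm _)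
        (hb.mono_left h𝒰1)
    have h1 : χ a = 0 := by
      have := congrArg (fun f : C(KU X, ℂ) => f ⟨χ, hmem⟩) h
      exact this
    rw [hχ] at h1
    have h2 := (evU_tendsto 𝒰 x a).norm
    rw [h1, norm_zero] at h2
    have h3 : ε ≤ 0 := by
      refine ge_of_tendsto h2 ?_
      filter_upwards [h𝒰2] with n hn
      rw [hx]
      exact hn
    linarith
  · intro h
    ext χ
    exact χ.2 a h

end

/-- The sequence algebra of `C(X)` with the induced action exists. -/
theorem exists_sequenceAlgebra (G : Type) [Group G] [TopologicalSpace G] [IsTopologicalGroup G]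
    (X : Type) [TopologicalSpace X] [MulAction G X] [ContinuousSMul G X] [CompactSpace X]
    [Nonempty X] : ∃ (B : Type) (_ : CStarAlgebra B) (q : (ℕ →ᵇ C(X, ℂ)) →⋆ₐ[ℂ] B)
      (act : G → B → B), IsSequenceAlgebra q act := by
  refine ⟨C(KU X, ℂ), inferInstance, qU X,
    fun g b => qU X (seqTransl g (Function.surjInv qU_surjective b)), qU_surjective, qU_ker,
    fun g a => ?_⟩
  rw [← sub_eq_zero, ← map_sub, qU_ker]
  have h1 : qU X (Function.surjInv qU_surjective (qU X a) - a) = 0 := by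
    rw [map_sub, Function.surjInv_eq qU_surjective, sub_self]
  rw [qU_ker] at h1
  refine squeeze_zero (fun n => norm_nonneg _) (fun n => ?_) h1
  have h2 : (seqTransl g (Function.surjInv qU_surjective (qU X a)) - seqTransl g a) n
      = transl g ((Function.surjInv qU_surjective (qU X a) - a) n) := rfl
  rw [h2]
  exact norm_transl_le g _

end Pool.Agent.V11109.Rok
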