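import Mathlib

/-!
# Rokhlin dimension of actions of compact groups on `C(X)`
-/

set_option autoImplicit false
set_option linter.style.haveILetI false
set_option linter.unusedSectionVars false

open scoped ComplexOrder Topology BoundedContinuousFunction
open Filter

namespace Pool.Agent.V11109.Rok

/-- a positive element of a C*-algebra -/
def IsPos {B : Type} [CStarAlgebra B] (a : B) : Prop := ∃ c : B, a = star c * c

section

variable {G : Type} [Group G] [TopologicalSpace G] [IsTopologicalGroup G]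
  {X : Type} [TopologicalSpace X] [MulAction G X] [ContinuousSMul G X]

/-- the automorphism `f ↦ (x ↦ f (g⁻¹ • x))` of `C(X)` -/
noncomputable def transl (g : G) (f : C(X, ℂ)) : C(X, ℂ) := ⟨fun x => f (g⁻¹ • x), by fun_prop⟩

lemma transl_apply (g : G) (f : C(X, ℂ)) (x : X) : transl g f x = f (g⁻¹ • x) := rfl

variable [CompactSpace X]

lemma norm_transl_le (g : G) (f : C(X, ℂ)) : ‖transl g f‖ ≤ ‖f‖ := by
  rw [ContinuousMap.norm_le _ (norm_nonneg f)]
  intro x
  exact f.norm_coe_le_norm _

/-- the induced action on bounded sequences in `C(X)` -/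
noncomputable def seqTransl (g : G) (a : ℕ →ᵇ C(X, ℂ)) : ℕ →ᵇ C(X, ℂ) :=
  BoundedContinuousFunction.ofNormedAddCommGroup (fun n => transl g (a n))
    continuous_of_discreteTopology ‖a‖ (fun n => (norm_transl_le g (a n)).trans (a.norm_coe_le_norm n))

lemma seqTransl_apply (g : G) (a : ℕ →ᵇ C(X, ℂ)) (n : ℕ) : seqTransl g a n = transl g (a n) := rfl

/-- `B`, with the quotient map `q` and the action `act` of `G`, is the sequence algebra
`A_∞ = ℓ^∞(ℕ, A) / c₀(ℕ, A)` of `A = C(X)` with the action induced by the action on `A`. (`ℓ^∞(ℕ, A)`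
is the C*-algebra `ℕ →ᵇ A` of bounded sequences in `A`.) -/
structure IsSequenceAlgebra {B : Type} [CStarAlgebra B] (q : (ℕ →ᵇ C(X, ℂ)) →⋆ₐ[ℂ] B)
    (act : G → B → B) : Prop where
  surjective : Function.Surjective q
  ker : ∀ a, q a = 0 ↔ Tendsto (fun n => ‖a n‖) atTop (𝓝 0)
  act_q : ∀ g a, act g (q a) = q (seqTransl g a)

end

/-- complete positivity of a linear map between C*-algebras -/
def IsCP {A B : Type} [CStarAlgebra A] [CStarAlgebra B] (φ : A →ₗ[ℂ] B) : Prop :=
  ∀ (n : ℕ) (a : Fin n → A) (b : Fin n → B),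
    IsPos (∑ i, ∑ j, star (b i) * φ (star (a i) * a j) * b j)

/-- `φ` has order zero: it maps orthogonal positive elements to orthogonal elements -/
def OrderZero {A B : Type} [CStarAlgebra A] [CStarAlgebra B] (φ : A →ₗ[ℂ] B) : Prop :=
  ∀ a b, IsPos a → IsPos b → a * b = 0 → φ a * φ b = 0

section

variable (G : Type) [Group G] [TopologicalSpace G] [IsTopologicalGroup G] [CompactSpace G]
  (X : Type) [TopologicalSpace X] [MulAction G X] [ContinuousSMul G X] [CompactSpace X]

/-- The conditions on a single map `φ : C(G) → A_{∞,α} ∩ A'`: completely positive, contractive,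
of order zero, equivariant (for left translation on `C(G)`), with values in the continuous part of
the sequence algebra and in the commutant of `A = C(X)`. -/
structure IsRokhlinMap {B : Type} [CStarAlgebra B] (q : (ℕ →ᵇ C(X, ℂ)) →⋆ₐ[ℂ] B)
    (act : G → B → B) (φ : C(G, ℂ) →ₗ[ℂ] B) : Prop where
  cp : IsCP φ
  contractive : ∀ f, ‖φ f‖ ≤ ‖f‖
  orderZero : OrderZero φ
  equivariant : ∀ g f, φ (transl g f) = act g (φ f)
  continuous : ∀ f, Continuous fun g => act g (φ f)
  commutant : ∀ f (c : C(X, ℂ)),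
    φ f * q (BoundedContinuousFunction.const ℕ c) = q (BoundedContinuousFunction.const ℕ c) * φ f

/-- The Rokhlin dimension of the action of `G` on `C(X)` is at most `d`. -/
def RokhlinDimLE (d : ℕ) : Prop :=
  ∃ (B : Type) (_ : CStarAlgebra B) (q : (ℕ →ᵇ C(X, ℂ)) →⋆ₐ[ℂ] B) (act : G → B → B),
    IsSequenceAlgebra q act ∧ ∃ φ : Fin (d + 1) → (C(G, ℂ) →ₗ[ℂ] B),
      (∀ j, IsRokhlinMap G X q act (φ j)) ∧ ∑ j, φ j 1 = 1

end

end Pool.Agent.V11109.Rok
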