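import Pool.Agent.V11109.Rok.Defs
import Pool.Agent.Helper133.BULib

/-!
# A free action of a compact group with infinite Rokhlin dimension
-/

set_option autoImplicit false
set_option linter.style.haveILetI false
set_option linter.unusedSectionVars false

open scoped ComplexOrder Topology BoundedContinuousFunction
open Filter

namespace Pool.Agent.V11109.Rok

open Pool.Agent.Helper133.BU

/-- the group `∏ ℤ/2` -/
abbrev GG : Type := ℕ → ℤˣ

/-- the sphere of dimension `n`, realised as the boundary of the cross polytope in `ℝ^(n+1)` -/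
abbrev Sph (n : ℕ) : Type := K n

/-- the product of the spheres of all dimensions -/
abbrev XX : Type := ∀ n : ℕ, Sph n

lemma neg_mem_K {n : ℕ} {x : Fin (n + 1) → ℝ} (hx : x ∈ K n) : -x ∈ K n := by
  simp only [K, Set.mem_ofPred_eq, Pi.neg_apply, abs_neg] at hx ⊢
  exact hx

/-- the antipodal map -/
def anti {n : ℕ} (x : Sph n) : Sph n := ⟨-x.1, neg_mem_K x.2⟩

lemma anti_anti {n : ℕ} (x : Sph n) : anti (anti x) = x := Subtype.ext (neg_neg _)

lemma anti_ne {n : ℕ} (x : Sph n) : anti x ≠ x := by
  intro h
  have h1 : -x.1 = x.1 := congrArg Subtype.val h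
  have h2 : x.1 = 0 := by
    have h3 : ∀ i, x.1 i = 0 := fun i => by
      have := congrFun h1 i
      simp only [Pi.neg_apply] at this
      linarith
    exact funext h3
  have h3 := x.2
  simp only [K, Set.mem_ofPred_eq, h2] at h3
  simp at h3

lemma continuous_anti {n : ℕ} : Continuous (anti : Sph n → Sph n) :=
  (continuous_subtype_val.neg).subtype_mk _

/-- the action of `ℤ/2` by the antipodal map -/
def sgn (e : ℤˣ) {n : ℕ} (x : Sph n) : Sph n := if e = 1 then x else anti x

lemma sgn_one {n : ℕ} (x : Sph n) : sgn 1 x = x := if_pos rfl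

lemma sgn_neg_one {n : ℕ} (x : Sph n) : sgn (-1) x = anti x := if_neg (by decide)

lemma sgn_mul (e f : ℤˣ) {n : ℕ} (x : Sph n) : sgn (e * f) x = sgn e (sgn f x) := by
  rcases Int.units_eq_one_or e with rfl | rfl <;> rcases Int.units_eq_one_or f with rfl | rfl
  · rw [one_mul, sgn_one, sgn_one]
  · rw [one_mul, sgn_one]
  · rw [mul_one, sgn_one]
  · rw [neg_mul_neg, one_mul, sgn_one, sgn_neg_one, sgn_neg_one, anti_anti]

/-- coordinatewise antipodal action -/
noncomputable instance : MulAction GG XX where
  smul g x := fun n => sgn (g n) (x n)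
  one_smul x := funext fun n => sgn_one (x n)
  mul_smul g h x := funext fun n => sgn_mul (g n) (h n) (x n)

lemma smul_apply' (g : GG) (x : XX) (n : ℕ) : (g • x) n = sgn (g n) (x n) := rfl

instance : ContinuousSMul GG XX where
  continuous_smul := by
    refine continuous_pi fun n => ?_
    show Continuous fun p : GG × XX => sgn (p.1 n) (p.2 n)
    have h1 : Continuous fun p : GG × XX => (p.1 n, p.2 n) := by fun_prop
    have h2 : Continuous fun p : ℤˣ × Sph n => sgn p.1 p.2 := by
      refine continuous_prod_of_discrete_left.mpr fun e => ?_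
      rcases Int.units_eq_one_or e with rfl | rfl
      · simp only [sgn_one]; exact continuous_id
      · simp only [sgn_neg_one]; exact continuous_anti
    exact h2.comp h1

instance (n : ℕ) : CompactSpace (Sph n) := isCompact_iff_compactSpace.mp (K_compact n)

/-- The action is free. -/
theorem free (g : GG) (x : XX) (h : g • x = x) : g = 1 := by
  funext n
  rcases Int.units_eq_one_or (g n) with h1 | h1
  · exact h1
  · exfalso
    have h2 := congrFun h n
    rw [smul_apply', h1, sgn_neg_one] at h2
    exact anti_ne _ h2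

lemma sph_nonempty (n : ℕ) : Nonempty (Sph n) := by
  refine ⟨⟨fun i => if i = 0 then 1 else 0, ?_⟩⟩
  simp only [K, Set.mem_ofPred_eq]
  rw [Finset.sum_eq_single 0]
  · simp
  · intro i _ hi; simp [hi]
  · simp

/-- a base point -/
noncomputable def base : XX := fun n => (sph_nonempty n).some

/-- the element of the group which acts on the factor `n` only -/
noncomputable def sig (n : ℕ) : GG := Function.update 1 n (-1)

lemma sig_inv (n : ℕ) : (sig n)⁻¹ = sig n := by
  funext k
  rw [Pi.inv_apply]
  rcases Int.units_eq_one_or (sig n k) with h | h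
  · rw [h, inv_one]
  · rw [h]; rfl

lemma sig_smul_update (n : ℕ) (z : Sph n) :
    sig n • (Function.update base n z) = Function.update base n (anti z) := by
  funext k
  rw [smul_apply', sig]
  by_cases h : k = n
  · subst h
    rw [Function.update_self, Function.update_self, Function.update_self, sgn_neg_one]
  · rw [Function.update_of_ne h, Function.update_of_ne h, Function.update_of_ne h]
    exact sgn_one _

/-- Borsuk-Ulam for odd maps on the sphere with values in `ℝ^n` -/
theorem borsuk (n : ℕ) (f : Sph n → (Fin n → ℝ)) (hf : Continuous f)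
    (hodd : ∀ z, f (anti z) = - f z) : ∃ z, f z = 0 := by
  have hK : IsClosed (K n) := (K_compact n).isClosed
  obtain ⟨g, hg⟩ := ContinuousMap.exists_restrict_eq hK ⟨f, hf⟩
  have hg' : ∀ z : Sph n, g z.1 = f z := fun z => by
    have := congrArg (fun h : C(K n, Fin n → ℝ) => h z) hg
    exact this
  obtain ⟨z, hz, hfz⟩ := borsuk_ulam n (fun x => (1 / 2 : ℝ) • (g x - g (-x))) (by fun_prop)
    (fun x => by rw [neg_neg, ← smul_neg, neg_sub])
  refine ⟨⟨z, hz⟩, ?_⟩
  have h1 : g z = f ⟨z, hz⟩ := hg' ⟨z, hz⟩
  have h2 : g (-z) = - f ⟨z, hz⟩ := by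
    rw [← hodd]
    exact hg' (anti ⟨z, hz⟩)
  rw [h1, h2, sub_neg_eq_add, ← two_smul ℝ, smul_smul] at hfz
  simpa using hfz

/-- the two indicator functions of the coordinate `n` -/
noncomputable def pplus (n : ℕ) : C(GG, ℂ) :=
  ⟨fun g => if g n = 1 then 1 else 0,
    (continuous_of_discreteTopology (f := fun e : ℤˣ => if e = 1 then (1 : ℂ) else 0)).comp
      (continuous_apply n)⟩

noncomputable def pminus (n : ℕ) : C(GG, ℂ) :=
  ⟨fun g => if g n = 1 then 0 else 1,
    (continuous_of_discreteTopology (f := fun e : ℤˣ => if e = 1 then (0 : ℂ) else 1)).comp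
      (continuous_apply n)⟩

lemma pplus_apply (n : ℕ) (g : GG) : pplus n g = if g n = 1 then 1 else 0 := rfl
lemma pminus_apply (n : ℕ) (g : GG) : pminus n g = if g n = 1 then 0 else 1 := rfl

lemma pplus_add (n : ℕ) : pplus n + pminus n = 1 := by
  ext g
  rw [ContinuousMap.add_apply, pplus_apply, pminus_apply]
  split_ifs <;> simp

lemma pplus_mul (n : ℕ) : pplus n * pminus n = 0 := by
  ext g
  rw [ContinuousMap.mul_apply, pplus_apply, pminus_apply]
  split_ifs <;> simp

lemma pplus_self (n : ℕ) : star (pplus n) * pplus n = pplus n := by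
  ext g
  rw [ContinuousMap.mul_apply, ContinuousMap.star_apply, pplus_apply]
  split_ifs <;> simp

lemma pminus_self (n : ℕ) : star (pminus n) * pminus n = pminus n := by
  ext g
  rw [ContinuousMap.mul_apply, ContinuousMap.star_apply, pminus_apply]
  split_ifs <;> simp

lemma transl_pplus (n : ℕ) : transl (sig n) (pplus n) = pminus n := by
  ext g
  rw [transl_apply, pplus_apply, pminus_apply, sig_inv, smul_eq_mul, Pi.mul_apply, sig,
    Function.update_self]
  rcases Int.units_eq_one_or (g n) with h | h
  · rw [h, mul_one, if_pos rfl, if_neg (by decide)]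
  · rw [h, neg_mul_neg, one_mul, if_pos rfl, if_neg (by decide)]

/-- There are no `n` Rokhlin maps. -/
theorem no_maps (n : ℕ) {B : Type} [CStarAlgebra B] {q : (ℕ →ᵇ C(XX, ℂ)) →⋆ₐ[ℂ] B}
    {act : GG → B → B} (hq : IsSequenceAlgebra q act) (φ : Fin n → (C(GG, ℂ) →ₗ[ℂ] B))
    (hφ : ∀ j, IsRokhlinMap GG XX q act (φ j)) (hsum : ∑ j, φ j 1 = 1) : False := by
  -- the images of the indicator functions
  have hpos : ∀ j, IsPos (φ j (pplus n)) := by
    intro j
    obtain ⟨c, hc⟩ := (hφ j).cp 1 (fun _ => pplus n) (fun _ => 1)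
    refine ⟨c, ?_⟩
    rw [← hc]
    simp [pplus_self]
  choose e he using hpos
  choose c hc using fun j => hq.surjective (e j)
  have hu : ∀ j, φ j (pplus n) = q (star (c j) * c j) := fun j => by
    rw [he, map_mul, map_star, hc]
  have hv : ∀ j, φ j (pminus n) = q (seqTransl (sig n) (star (c j) * c j)) := fun j => by
    rw [← transl_pplus, (hφ j).equivariant, hu, hq.act_q]
  -- the two limits
  have h1 : ∀ j, Tendsto (fun k => ‖(star (c j) * c j * seqTransl (sig n) (star (c j) * c j)) k‖)
      atTop (𝓝 0) := by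
    intro j
    rw [← hq.ker, map_mul, ← hu, ← hv]
    exact (hφ j).orderZero _ _ ⟨pplus n, (pplus_self n).symm⟩ ⟨pminus n, (pminus_self n).symm⟩
      (pplus_mul n)
  have h2 : Tendsto (fun k => ‖(∑ j, (star (c j) * c j + seqTransl (sig n) (star (c j) * c j))
      - 1 : ℕ →ᵇ C(XX, ℂ)) k‖) atTop (𝓝 0) := by
    rw [← hq.ker, map_sub, map_sum, map_one, sub_eq_zero, ← hsum]
    refine Finset.sum_congr rfl fun j _ => ?_
    rw [map_add, ← hu, ← hv, ← map_add, pplus_add]
  -- choose a good index
  set ε : ℝ := (1 / (4 * (n + 1))) ^ 2 with hε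
  have hε0 : 0 < ε := by positivity
  have h3 : ∀ᶠ k in atTop, (∀ j, ‖(star (c j) * c j * seqTransl (sig n) (star (c j) * c j)) k‖ < ε) ∧
      ‖(∑ j, (star (c j) * c j + seqTransl (sig n) (star (c j) * c j))
      - 1 : ℕ →ᵇ C(XX, ℂ)) k‖ < 1 / 2 := by
    refine Filter.Eventually.and ?_ (h2.eventually_lt_const (by norm_num))
    rw [Filter.eventually_all]
    exact fun j => (h1 j).eventually_lt_const hε0
  obtain ⟨k, hk1, hk2⟩ := h3.exists
  -- the real functions
  set a : Fin n → XX → ℝ := fun j x => ‖c j k x‖ ^ 2 with ha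
  have haC : ∀ j x, (star (c j) * c j) k x = (a j x : ℂ) := by
    intro j x
    show star (c j k x) * c j k x = _
    rw [Complex.star_def, Complex.conj_mul']
    exact (Complex.ofReal_pow _ _).symm
  have hac : ∀ j, Continuous (a j) := fun j => by
    show Continuous fun x => ‖c j k x‖ ^ 2
    fun_prop
  have ha0 : ∀ j x, 0 ≤ a j x := fun j x => sq_nonneg _
  have hprod : ∀ j x, a j x * a j (sig n • x) < ε := by
    intro j x
    have h4 := (ContinuousMap.norm_coe_le_norm
      ((star (c j) * c j * seqTransl (sig n) (star (c j) * c j)) k) x).trans_lt (hk1 j)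
    have h5 : (star (c j) * c j * seqTransl (sig n) (star (c j) * c j)) k x
        = ((a j x * a j (sig n • x) : ℝ) : ℂ) := by
      show (star (c j) * c j) k x * (seqTransl (sig n) (star (c j) * c j)) k x = _
      rw [seqTransl_apply, transl_apply, haC, haC, sig_inv]
      push_cast
      rfl
    rw [h5, Complex.norm_real] at h4
    exact (le_abs_self _).trans_lt h4
  have hsum' : ∀ x, 1 / 2 < ∑ j, (a j x + a j (sig n • x)) := by
    intro x
    have h4 := (ContinuousMap.norm_coe_le_norm
      ((∑ j, (star (c j) * c j + seqTransl (sig n) (star (c j) * c j))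
      - 1 : ℕ →ᵇ C(XX, ℂ)) k) x).trans_lt hk2
    have h5 : ((∑ j, (star (c j) * c j + seqTransl (sig n) (star (c j) * c j))
      - 1 : ℕ →ᵇ C(XX, ℂ)) k) x = ((∑ j, (a j x + a j (sig n • x)) - 1 : ℝ) : ℂ) := by
      rw [BoundedContinuousFunction.sub_apply, ContinuousMap.sub_apply,
        BoundedContinuousFunction.sum_apply, ContinuousMap.sum_apply]
      push_cast
      congr 1
      refine Finset.sum_congr rfl fun j _ => ?_
      show (star (c j) * c j) k x + (seqTransl (sig n) (star (c j) * c j)) k x = _
      rw [seqTransl_apply, transl_apply, haC, haC, sig_inv]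
    rw [h5, Complex.norm_real, Real.norm_eq_abs, abs_lt] at h4
    linarith [h4.1]
  -- the odd map
  obtain ⟨z, hz⟩ := borsuk n (fun z => fun j : Fin n =>
    a j (Function.update base n z) - a j (sig n • Function.update base n z)) (by
      refine continuous_pi fun j => ?_
      have h4 : Continuous fun z : Sph n => (Function.update base n z : XX) :=
        continuous_const.update n continuous_id
      exact ((hac j).comp h4).sub ((hac j).comp (h4.const_smul (sig n)))) (by
      intro z
      funext j
      rw [Pi.neg_apply, sig_smul_update, sig_smul_update, anti_anti]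
      ring)
  set x : XX := Function.update base n z with hx
  have hz' : ∀ j, a j x = a j (sig n • x) := fun j => by
    have := congrFun hz j
    exact sub_eq_zero.mp this
  have hsmall : ∀ j, a j x < 1 / (4 * (n + 1)) := by
    intro j
    have h4 := hprod j x
    rw [← hz' j, ← sq] at h4
    exact lt_of_pow_lt_pow_left₀ 2 (by positivity) h4
  have h6 := hsum' x
  have h7 : ∑ j, (a j x + a j (sig n • x)) ≤ ∑ j : Fin n, 2 * (1 / (4 * ((n : ℝ) + 1))) := by
    refine Finset.sum_le_sum fun j _ => ?_
    rw [← hz' j]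
    linarith [hsmall j]
  rw [Finset.sum_const, Finset.card_univ, Fintype.card_fin, nsmul_eq_mul] at h7
  have h8 : (n : ℝ) * (2 * (1 / (4 * ((n : ℝ) + 1)))) ≤ 1 / 2 := by
    have h9 : (0 : ℝ) < 4 * ((n : ℝ) + 1) := by positivity
    rw [show (n : ℝ) * (2 * (1 / (4 * ((n : ℝ) + 1)))) = (2 * n) / (4 * ((n : ℝ) + 1)) by ring,
      div_le_iff₀ h9]
    linarith
  linarith

/-- The action has infinite Rokhlin dimension. -/
theorem not_rokhlinDimLE (d : ℕ) : ¬ RokhlinDimLE GG XX d := by
  rintro ⟨B, _, q, act, hq, φ, hφ, hsum⟩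
  exact no_maps (d + 1) hq φ hφ hsum

end Pool.Agent.V11109.Rok
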